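import Mathlib
import Pool.Agent.Lib.MP_b7b920_al_CT.Main
import Pool.Agent.Lib.MP_b7b920_al_h55.Final
import Pool.Agent.Lib.MP_b7b920_al_h61.Lattice

/-!
The special rank of a torsion-free soluble group is its Hirsch length.
-/

set_option autoImplicit false

namespace Pool.MP_b7b920_al.C20

open Subgroup Pool.MP_b7b920_al.H55

/-- the crystallographic theorem of the library -/
theorem ct : CTStatement := by
  have hLD : CT.LDLattice := by
    intro l hl P _ _ hP L _ _ _ _ hf
    have : Fact l.Prime := ⟨hl⟩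
    exact Pool.Agent.Lib.MP_b7b920_al_h61.lemmaD_lattice hP hf
  exact fun _ _ _ _ _ _ _ _ ι hC hs => CT.main_of_LD ι hLD hC hs

theorem genBy_of (K : Type) [Group K] [Group.FG K] [Group.IsSolvable K] (n : ℕ)
    (h : ¬ ZLen (n + 1) (⊤ : Subgroup K)) : GenBy n K :=
  claimA ct n K h

/-- rank and Hirsch length -/
theorem rank_iff (G : Type) [Group G] [Group.IsSolvable G]
    (htf : ∀ g : G, IsOfFinOrder g → g = 1) (r : ℕ) :
    RankLE r G ↔ ¬ ZLen (r + 1) (⊤ : Subgroup G) := by
  classical
  constructor
  · intro h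
    exact not_zlen h
  · intro hz K hK
    have hfgK : Group.FG K := (Group.fg_iff_subgroup_fg K).2 hK
    have hnz : ¬ ZLen (r + 1) (⊤ : Subgroup K) := by
      intro hz'
      apply hz
      have := hz'.map K.subtype K.subtype_injective
      exact this.mono le_top
    obtain ⟨E, hE, f, hf⟩ := genBy_of K r hnz
    have hE1 : ∀ x ∈ E, x = 1 := by
      intro x hx
      have h1 : IsOfFinOrder (⟨x, hx⟩ : E) := isOfFinOrder_of_finite _
      have h2 : IsOfFinOrder x := E.subtype.isOfFinOrder h1
      have h3 : IsOfFinOrder (x : G) := K.subtype.isOfFinOrder h2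
      exact Subtype.ext (htf _ h3)
    refine ⟨Finset.univ.image (fun i => (f i : G)), Finset.card_image_le.trans (by simp), ?_⟩
    have h1 : Subgroup.closure (Set.range f) = ⊤ := by
      rw [eq_top_iff, ← hf, Subgroup.closure_le]
      rintro x (hx | hx)
      · rw [hE1 x hx]
        exact Subgroup.one_mem _
      · exact Subgroup.subset_closure hx
    have h2 := congrArg (Subgroup.map K.subtype) h1
    rw [MonoidHom.map_closure, ← MonoidHom.range_eq_map, Subgroup.range_subtype,
      ← Set.range_comp] at h2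
    rw [Finset.coe_image, Finset.coe_univ, Set.image_univ]
    exact h2

/-- subgroups of finite index -/
theorem rankLE_index (G : Type) [Group G] [Group.IsSolvable G]
    (htf : ∀ g : G, IsOfFinOrder g → g = 1) (H : Subgroup G) (hH : H.index ≠ 0) (r : ℕ) :
    RankLE r H ↔ RankLE r G := by
  constructor
  · intro h
    rw [rank_iff G htf r]
    intro hz
    have h2 : ZLen (r + 1) ((⊤ : Subgroup G) ⊓ H) := by
      apply ZLen.inf_of_pow _ hz
      intro x _
      obtain ⟨j, hj, _, hxj⟩ := Subgroup.exists_pow_mem_of_index_ne_zero hH x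
      exact ⟨j, hj, hxj⟩
    have h3 : ZLen (r + 1) (((⊤ : Subgroup G) ⊓ H).comap H.subtype) :=
      h2.comap H.subtype (by rw [Subgroup.range_subtype]; exact inf_le_right)
    exact not_zlen h (h3.mono le_top)
  · intro h
    exact h.of_injective H.subtype H.subtype_injective

/-- The special (Prüfer-Mal'cev) rank of `G`: the least `r` such that every finitely generated
subgroup of `G` can be generated by at most `r` elements, and `∞` if there is no such `r`. -/
noncomputable def specialRank (G : Type) [Group G] : ℕ∞ :=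
  ⨅ r ∈ {r : ℕ | RankLE r G}, (r : ℕ∞)

/-- The largest `n` with `ZLen n G`, and `∞` if there are arbitrarily large such `n`. -/
noncomputable def hirsch (G : Type) [Group G] : ℕ∞ :=
  ⨆ n ∈ {n : ℕ | ZLen n (⊤ : Subgroup G)}, (n : ℕ∞)

theorem rankLE_mono {G : Type} [Group G] {r s : ℕ} (hrs : r ≤ s) (h : RankLE r G) : RankLE s G := by
  intro K hK
  obtain ⟨t, ht, htK⟩ := h K hK
  exact ⟨t, ht.trans hrs, htK⟩

theorem specialRank_le {G : Type} [Group G] (r : ℕ) : specialRank G ≤ r ↔ RankLE r G := by
  unfold specialRank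
  constructor
  · intro h
    by_contra hcon
    have h1 : ((r + 1 : ℕ) : ℕ∞) ≤ ⨅ r ∈ {r : ℕ | RankLE r G}, (r : ℕ∞) := by
      refine le_iInf₂ fun s hs => ?_
      have h2 : ¬ s ≤ r := fun h' => hcon (rankLE_mono h' hs)
      exact_mod_cast (by omega : r + 1 ≤ s)
    have h2 := h1.trans h
    have h3 : r + 1 ≤ r := by exact_mod_cast h2
    omega
  · intro h
    exact iInf₂_le_of_le r h le_rfl

theorem hirsch_le {G : Type} [Group G] (r : ℕ) :
    hirsch G ≤ r ↔ ¬ ZLen (r + 1) (⊤ : Subgroup G) := by
  unfold hirsch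
  constructor
  · intro h hz
    have h1 : ((r + 1 : ℕ) : ℕ∞) ≤ ⨆ n ∈ {n : ℕ | ZLen n (⊤ : Subgroup G)}, (n : ℕ∞) :=
      le_iSup₂_of_le (r + 1) hz le_rfl
    have h2 := h1.trans h
    have h3 : r + 1 ≤ r := by exact_mod_cast h2
    omega
  · intro h
    refine iSup₂_le fun s hs => ?_
    by_contra hcon
    have h2 : ¬ s ≤ r := fun h' => hcon (by exact_mod_cast h')
    apply h
    have h3 : ZLen s (⊤ : Subgroup G) := hs
    exact h3.of_le (by omega)

theorem enat_eq {a b : ℕ∞} (h : ∀ n : ℕ, a ≤ n ↔ b ≤ n) : a = b := by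
  apply le_antisymm
  · rcases eq_or_ne b ⊤ with h1 | h1
    · rw [h1]; exact le_top
    · obtain ⟨n, hn⟩ := ENat.ne_top_iff_exists.1 h1
      rw [← hn]
      exact (h n).2 hn.symm.le
  · rcases eq_or_ne a ⊤ with h1 | h1
    · rw [h1]; exact le_top
    · obtain ⟨n, hn⟩ := ENat.ne_top_iff_exists.1 h1
      rw [← hn]
      exact (h n).1 hn.symm.le

theorem specialRank_eq_hirsch (G : Type) [Group G] [Group.IsSolvable G]
    (htf : ∀ g : G, IsOfFinOrder g → g = 1) : specialRank G = hirsch G :=
  enat_eq fun n => by rw [specialRank_le, hirsch_le, rank_iff G htf n]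

theorem specialRank_index (G : Type) [Group G] [Group.IsSolvable G]
    (htf : ∀ g : G, IsOfFinOrder g → g = 1) (H : Subgroup G) (hH : H.index ≠ 0) :
    specialRank H = specialRank G :=
  enat_eq fun n => by rw [specialRank_le, specialRank_le, rankLE_index G htf H hH n]

theorem specialRank_equiv {G H : Type} [Group G] [Group H] (e : G ≃* H) :
    specialRank G = specialRank H :=
  enat_eq fun n => by
    rw [specialRank_le, specialRank_le]
    exact ⟨fun h => h.of_injective e.symm.toMonoidHom e.symm.injective,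
      fun h => h.of_injective e.toMonoidHom e.injective⟩

end Pool.MP_b7b920_al.C20
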